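import Pool.Agent.H809_TA.PlaneEvery
import Pool.Agent.H809_TA.Defs

/-!
Every extremal unordered triple array with replication number `e > 2` and with `e + 1` rows or
`e + 1` columns can be ordered. These are the unordered triple arrays of all affine planes of
order `e > 2` and their transposes.
-/

set_option autoImplicit false

namespace Pool.Agent.Results.MP_9dc2ba_co.AllPlanes

open Pool.Agent.H809_TA

theorem result : ∀ (r c e : ℕ) (R : Fin r → Finset (Fin (r + c - 1)))
    (C : Fin c → Finset (Fin (r + c - 1))), IsUTA R C e → 2 < e → (r = e + 1 ∨ c = e + 1) →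
    ∃ T : Fin r → Fin c → Fin (r + c - 1),
      IsTripleArray T ∧ (∀ i, rowSet T i = R i) ∧ ∀ j, colSet T j = C j := by
  intro r c e R C hU he h
  have hA : HasArr R C := by
    rcases h with h | h
    · exact hasArr_of_plane hU (by simp only [Fintype.card_fin]; omega)
        (by rw [Fintype.card_fin]; exact h) he
    · exact (hasArr_of_plane hU.symm' (by simp only [Fintype.card_fin]; omega)
        (by rw [Fintype.card_fin]; exact h) he).symm
  obtain ⟨T, h1, h2, h3, h4⟩ := hA
  exact ⟨T, order_of_array hU T h1 h2 h3 h4⟩

end Pool.Agent.Results.MP_9dc2ba_co.AllPlanes
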