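import Pool.Agent.H809_TA.Assembly
import Pool.Agent.H809_TA.Defs
import Pool.Agent.H809_TA.ClassicalDefs

/-!
Every extremal unordered triple array with replication number `e > 2` whose symmetric design, or
the symmetric design of whose transpose, is the design of points and hyperplanes of a finite
projective space `PG(n, K)` can be ordered.
-/

set_option autoImplicit false

namespace Pool.Agent.Results.MP_9dc2ba_co.ClassicalDesigns

open Pool.Agent.H809_TA

theorem result : ∀ (r c e : ℕ) (R : Fin r → Finset (Fin (r + c - 1)))
    (C : Fin c → Finset (Fin (r + c - 1))), IsUTA R C e → 2 < e →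
    (IsClassical R C ∨ IsClassical C R) →
    ∃ T : Fin r → Fin c → Fin (r + c - 1),
      IsTripleArray T ∧ (∀ i, rowSet T i = R i) ∧ ∀ j, colSet T j = C j := by
  intro r c e R C hU he h
  have hA : HasArr R C := by
    rcases h with h | h
    · exact hasArr_of_classical hU he h
    · have hU' : IsUTA C R e := by
        obtain ⟨h1, h2, h3, h4, ⟨l, hl⟩, h6, h7⟩ := hU
        exact ⟨h2, h1, h4, h3, ⟨l, fun j i => by rw [Finset.inter_comm]; exact hl i j⟩, h7, h6⟩
      exact (hasArr_of_classical hU' he h).symm
  obtain ⟨T, h1, h2, h3, h4⟩ := hA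
  exact ⟨T, order_of_array hU T h1 h2 h3 h4⟩

end Pool.Agent.Results.MP_9dc2ba_co.ClassicalDesigns
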