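import Pool.Agent.H809_TA.IntegralTwo
import Pool.Agent.H809_TA.IntegralDefs
import Pool.Agent.H809_TA.Defs

/-!
An extremal unordered triple array has an integral ordering if and only if its replication number
is different from two.
-/

set_option autoImplicit false

namespace Pool.Agent.Results.MP_9dc2ba_co.IntegralOrderings

open Pool.Agent.H809_TA

theorem result : ∀ (r c e : ℕ), 0 < r → 0 < c → ∀ (R : Fin r → Finset (Fin (r + c - 1)))
    (C : Fin c → Finset (Fin (r + c - 1))), IsUTA R C e →
    (HasIntegralOrdering R C ↔ e ≠ 2) := by
  intro r c e hr hc R C hU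
  exact integral_iff hU (by simp only [Fintype.card_fin]; omega) (by simpa using hr)
    (by simpa using hc)

end Pool.Agent.Results.MP_9dc2ba_co.IntegralOrderings
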